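import Mathlib

/-!
# Squad LPK (MP_37fa12_co): pair sums over a lattice and its dual

Definitions.  `V n` is `ℝ^n`; the norm of a vector is the square of its length.  The Gaussian is
`e^(-|x|²/2)`; lattices have covolume `κ (2π)^(n/2)` and the dual lattice consists of the vectors `u` with
`⟨x, u⟩ ∈ 2πℤ`, so that only the factor `κ` appears in the Poisson summation formula.
-/

set_option autoImplicit false

noncomputable section

open MeasureTheory Filter Topology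
open scoped RealInnerProductSpace

namespace Pool.Agent.LPK

/-- `ℝ^n` -/
abbrev V (n : ℕ) : Type := EuclideanSpace ℝ (Fin n)

/-- polynomials in `A, B, H` with integer coefficients: `(c, i, j, k)` is the term `c A^i B^j H^k` -/
abbrev P3 : Type := List (ℤ × ℕ × ℕ × ℕ)

/-- value of a polynomial -/
def e3 (p : P3) (A B H : ℝ) : ℝ :=
  (p.map fun t => (t.1 : ℝ) * A ^ t.2.1 * B ^ t.2.2.1 * H ^ t.2.2.2).sum

/-- only even powers of `H` (terms with the coefficient `0` do not count) -/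
def Ev (p : P3) : Prop := ∀ t ∈ p, t.1 ≠ 0 → t.2.2.2 % 2 = 0

/-- evaluation of a list of coefficients (Horner) -/
def e1 : List ℤ → ℝ → ℝ
  | [], _ => 0
  | a :: l, x => a + x * e1 l x

/-- multiplication by an integer -/
def sc (c : ℤ) (p : P3) : P3 := p.map fun t => (c * t.1, t.2.1, t.2.2.1, t.2.2.2)
/-- multiplication by `A` -/
def mA (p : P3) : P3 := p.map fun t => (t.1, t.2.1 + 1, t.2.2.1, t.2.2.2)
/-- multiplication by `B` -/
def mB (p : P3) : P3 := p.map fun t => (t.1, t.2.1, t.2.2.1 + 1, t.2.2.2)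
/-- multiplication by `H` -/
def mH (p : P3) : P3 := p.map fun t => (t.1, t.2.1, t.2.2.1, t.2.2.2 + 1)
/-- derivative with respect to `A` -/
def dA (p : P3) : P3 := p.map fun t => (t.1 * t.2.1, t.2.1 - 1, t.2.2.1, t.2.2.2)
/-- derivative with respect to `H` -/
def dH (p : P3) : P3 := p.map fun t => (t.1 * t.2.2.2, t.2.1, t.2.2.1, t.2.2.2 - 1)

/-- `-Δ` of `q(|w|², |y|², ⟨w,y⟩) e^(-|w|²/2)`:
`n q - A q + 4 A q_A + 2 H q_H - 2 n q_A - 4 A q_AA - 4 H q_AH - B q_HH` -/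
def opA (n : ℕ) (q : P3) : P3 :=
  sc n q ++ sc (-1) (mA q) ++ sc 4 (mA (dA q)) ++ sc 2 (mH (dH q)) ++ sc (-2 * n) (dA q) ++
    sc (-4) (mA (dA (dA q))) ++ sc (-4) (mH (dA (dH q))) ++ sc (-1) (mB (dH (dH q)))

/-- the derivative in the direction `y` of `q(|w|², |y|², ⟨w,y⟩) e^(-|w|²/2)`:
`2 H q_A + B q_H - H q` -/
def opD (q : P3) : P3 := sc 2 (mH (dA q)) ++ mB (dH q) ++ sc (-1) (mH q)

/-- transform of `A^i B^j H^(2k)` -/
def tm (n i j k : ℕ) : P3 :=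
  mB^[j] ((opA n)^[i] ((fun q => sc (-1) (opD (opD q)))^[k] [(1, 0, 0, 0)]))

/-- the transform of a polynomial with respect to the first vector -/
def T3 (n : ℕ) (p : P3) : P3 := p.flatMap fun t => sc t.1 (tm n t.2.1 t.2.2.1 (t.2.2.2 / 2))

/-- the Gaussian -/
def G {n : ℕ} (x : V n) : ℝ := Real.exp (-‖x‖ ^ 2 / 2)

/-- the function of a pair of vectors -/
def W {n : ℕ} (p : P3) (x y : V n) : ℝ := e3 p (‖x‖ ^ 2) (‖y‖ ^ 2) ⟪x, y⟫ * (G x * G y)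

/-- the function of one vector -/
def W1 {n : ℕ} (s : List ℤ) (x : V n) : ℝ := e1 s (‖x‖ ^ 2) * G x

/-- a point of the lattice with the basis `b` -/
def pt {n : ℕ} (b : Fin n → V n) (a : Fin n → ℤ) : V n := ∑ i, (a i : ℝ) • b i

/-- `b` and `b'` are dual bases up to the factor `2π`, the covolume is `κ (2π)^(n/2)` -/
structure Du {n : ℕ} (κ : ℝ) (b b' : Fin n → V n) : Prop where
  pos : 0 < κ
  dual : ∀ i j, ⟪b i, b' j⟫ = if i = j then 2 * Real.pi else 0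
  vol : (Matrix.of fun i j => b i j).det ^ 2 = κ ^ 2 * (2 * Real.pi) ^ n

/-- an even integer vector -/
def Evn {n : ℕ} (a : Fin n → ℤ) : Prop := ∀ i, 2 ∣ a i

/-- congruence modulo 2 -/
def Cg {n : ℕ} (a c : Fin n → ℤ) : Prop := ∀ i, 2 ∣ a i - c i

/-- `(-1)^(a·c)` -/
def sg {n : ℕ} (a c : Fin n → ℤ) : ℝ := (-1) ^ (∑ i, a i * c i).natAbs

open Classical in
/-- indicator -/
def ind (p : Prop) : ℝ := if p then 1 else 0

/-- index set of pairs -/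
abbrev Z2 (n : ℕ) : Type := (Fin n → ℤ) × (Fin n → ℤ)

/-- the nonzero vectors with integer coordinates have norm at least `μ` -/
def Mu {n : ℕ} (μ : ℝ) (b : Fin n → V n) : Prop := ∀ a : Fin n → ℤ, a ≠ 0 → μ ≤ ‖pt b a‖ ^ 2

/-- `r = 2^(-n/2)` is written `1 / 2^(n/2)`, `n` even -/
def rr (n : ℕ) : ℝ := 1 / 2 ^ (n / 2)

/-- the expansion of `∑_c (α [c=0] + β r + S(c) + r ∑_d (-1)^(c·d) T(d))²` over the classes `c` modulo 2
of the lattice of `b`, `S(c) = ∑_(x ∈ c) s(x)`, `T(d) = ∑_(u ∈ d) t(u)` (classes of the lattice of `b'`) -/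
def CB {n : ℕ} (b b' : Fin n → V n) (α β : ℝ) (s t : List ℤ) : ℝ :=
  α ^ 2 + 2 * α * β * rr n + β ^ 2 +
  2 * α * (∑' a : Fin n → ℤ, ind (Evn a) * W1 s (pt b a)) +
  2 * β * rr n * (∑' a : Fin n → ℤ, W1 s (pt b a)) +
  2 * α * rr n * (∑' a : Fin n → ℤ, W1 t (pt b' a)) +
  2 * β * (∑' a : Fin n → ℤ, ind (Evn a) * W1 t (pt b' a)) +
  (∑' a : Z2 n, ind (Cg a.1 a.2) * (W1 s (pt b a.1) * W1 s (pt b a.2))) +
  (∑' a : Z2 n, ind (Cg a.1 a.2) * (W1 t (pt b' a.1) * W1 t (pt b' a.2))) +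
  2 * rr n * (∑' a : Z2 n, sg a.1 a.2 * (W1 s (pt b a.1) * W1 t (pt b' a.2)))

/-- values of a univariate polynomial at a pair -/
def K2 (L : List (ℕ × List ℤ)) (A B : ℝ) : ℝ := (L.map fun d => (d.1 : ℝ) * (e1 d.2 A * e1 d.2 B)).sum

/-- the data of a certificate.  `P`, `Q`: pairs of vectors of the lattice and of the dual lattice,
`g` (only powers of `A`): one vector.  `cb`: class block `(d, α, β, s, t)`.  `ps`, `qs`: squares
`(d, α, s)`, `ps2`, `qs2`: degree 2 kernels `(d, s)`. -/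
structure CD where
  P : P3
  Q : P3
  g : P3
  cb : List (ℕ × ℤ × ℤ × List ℤ × List ℤ)
  ps : List (ℕ × ℤ × List ℤ)
  qs : List (ℕ × ℤ × List ℤ)
  ps2 : List (ℕ × List ℤ)
  qs2 : List (ℕ × List ℤ)

variable (n : ℕ) (κ : ℝ) (D : CD)

/-- kernel of the squares on the lattice, with the degree 2 part -/
def CD.K (A B H : ℝ) : ℝ := K2 (D.ps.map fun d => (d.1, d.2.2)) A B +
  K2 D.ps2 A B * (n * H ^ 2 - A * B)
/-- kernel of the squares on the dual lattice -/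
def CD.K' (A B H : ℝ) : ℝ := K2 (D.qs.map fun d => (d.1, d.2.2)) A B +
  K2 D.qs2 A B * (n * H ^ 2 - A * B)
/-- kernel of the class block -/
def CD.C (A B : ℝ) : ℝ := K2 (D.cb.map fun d => (d.1, d.2.2.2.1)) A B
/-- kernel of the class block, dual lattice -/
def CD.C' (A B : ℝ) : ℝ := K2 (D.cb.map fun d => (d.1, d.2.2.2.2)) A B
/-- cross kernel of the class block -/
def CD.X (A B : ℝ) : ℝ :=
  (D.cb.map fun d => (d.1 : ℝ) * (e1 d.2.2.2.1 A * e1 d.2.2.2.2 B)).sum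
/-- `∑ d α s` -/
def CD.as (A : ℝ) : ℝ := (D.cb.map fun d => (d.1 : ℝ) * (d.2.1 * e1 d.2.2.2.1 A)).sum
/-- `∑ d β s` -/
def CD.bs (A : ℝ) : ℝ := (D.cb.map fun d => (d.1 : ℝ) * (d.2.2.1 * e1 d.2.2.2.1 A)).sum
/-- `∑ d α t` -/
def CD.at (A : ℝ) : ℝ := (D.cb.map fun d => (d.1 : ℝ) * (d.2.1 * e1 d.2.2.2.2 A)).sum
/-- `∑ d β t` -/
def CD.bt (A : ℝ) : ℝ := (D.cb.map fun d => (d.1 : ℝ) * (d.2.2.1 * e1 d.2.2.2.2 A)).sum
/-- constants of the class block -/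
def CD.c0 : ℝ := (D.cb.map fun d => (d.1 : ℝ) *
  ((d.2.1 : ℝ) ^ 2 + 2 * d.2.1 * d.2.2.1 * rr n + (d.2.2.1 : ℝ) ^ 2)).sum
/-- borders of the squares -/
def bo (L : List (ℕ × ℤ × List ℤ)) (A : ℝ) : ℝ :=
  (L.map fun d => (d.1 : ℝ) * (d.2.1 * e1 d.2.2 A)).sum
/-- constants of the squares -/
def bc (L : List (ℕ × ℤ × List ℤ)) : ℝ := (L.map fun d => (d.1 : ℝ) * (d.2.1 : ℝ) ^ 2).sum

/-- pairs of the lattice -/
def CD.LL (A B H : ℝ) : ℝ := e3 D.P A B H + D.K n A B H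
/-- pairs of the dual lattice -/
def CD.SS (A B H : ℝ) : ℝ := e3 D.Q A B H + D.K' n A B H
/-- mixed pairs: `A` norm of the vector of the lattice, `B` norm of the dual vector -/
def CD.LS (A B H : ℝ) : ℝ := -(κ⁻¹ * e3 (T3 n D.P) B A H) - κ * e3 (T3 n D.Q) A B H
/-- one vector of the lattice -/
def CD.f1 (A : ℝ) : ℝ := e3 D.g A 0 0 + 2 * rr n * D.bs A + 2 * bo D.ps A
/-- one vector of the dual lattice -/
def CD.f1' (A : ℝ) : ℝ := -(κ⁻¹ * e3 (T3 n D.g) A 0 0) + 2 * rr n * D.at A + 2 * bo D.qs A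
/-- everything at the zero vectors -/
def CD.cst : ℝ := D.LL n 0 0 0 + D.C 0 0 + (D.SS n 0 0 0 + D.C' 0 0) + D.LS n κ 0 0 0 +
  2 * rr n * D.X 0 0 + (D.f1 n 0 + 2 * D.as 0) + (D.f1' n κ 0 + 2 * D.bt 0) + D.c0 n + bc D.ps +
    bc D.qs
/-- the part of a line with the factor `e^(-a/2)` -/
def CD.E1 (a : ℝ) : ℝ := D.LL n a 0 0 + D.LL n 0 a 0 + D.LS n κ a 0 0 + 2 * rr n * D.X a 0 + D.f1 n a
/-- the part of a line with the factor `e^(-a)` -/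
def CD.E2 (a : ℝ) : ℝ := 2 * D.LL n a a a + 2 * D.C a a
/-- additional part for even vectors -/
def CD.E3 (a : ℝ) : ℝ := 2 * D.C a 0 + 2 * D.as a
/-- the same for the dual lattice -/
def CD.E1' (a : ℝ) : ℝ := D.SS n a 0 0 + D.SS n 0 a 0 + D.LS n κ 0 a 0 + 2 * rr n * D.X 0 a + D.f1' n κ a
/-- the same for the dual lattice -/
def CD.E2' (a : ℝ) : ℝ := 2 * D.SS n a a a + 2 * D.C' a a
/-- the same for the dual lattice -/
def CD.E3' (a : ℝ) : ℝ := 2 * D.C' a 0 + 2 * D.bt a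

/-- A certificate: no lattice in `ℝ^n` of covolume `κ (2π)^(n/2)` with the norms of the nonzero
vectors at least `μ` (and `ν` in the dual lattice) exists. -/
structure Cert (μ ν : ℝ) : Prop where
  ev : Even n
  one : 2 ≤ n
  kap : 0 < κ
  pos : 0 < μ
  nng : 0 ≤ ν
  evP : Ev D.P
  evQ : Ev D.Q
  evg : ∀ t ∈ D.g, t.2.2.1 = 0 ∧ t.2.2.2 = 0
  cst : D.cst n κ < 0
  ll : ∀ A B H : ℝ, μ ≤ A → μ ≤ B → 0 ≤ H → μ ≤ A + B - 2 * H → H ^ 2 ≤ A * B →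
    D.LL n A B H + D.LL n B A H ≤ 0
  le : ∀ A B H : ℝ, μ ≤ A → μ ≤ B → 0 ≤ H → 4 * μ ≤ A + B - 2 * H → H ^ 2 ≤ A * B →
    D.LL n A B H + D.LL n B A H + 2 * D.C A B ≤ 0
  ss : ∀ A B H : ℝ, ν ≤ A → ν ≤ B → 0 ≤ H → ν ≤ A + B - 2 * H → H ^ 2 ≤ A * B →
    D.SS n A B H + D.SS n B A H ≤ 0
  se : ∀ A B H : ℝ, ν ≤ A → ν ≤ B → 0 ≤ H → 4 * ν ≤ A + B - 2 * H → H ^ 2 ≤ A * B →
    D.SS n A B H + D.SS n B A H + 2 * D.C' A B ≤ 0
  mx : ∀ (A B : ℝ) (k : ℕ), μ ≤ A → ν ≤ B → (2 * Real.pi * k) ^ 2 ≤ A * B →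
    D.LS n κ A B (2 * Real.pi * k) + 2 * rr n * (-1) ^ k * D.X A B ≤ 0
  l1 : ∀ a : ℝ, μ ≤ a → D.E1 n κ a + Real.exp (-a / 2) * D.E2 n a ≤ 0
  l2 : ∀ a : ℝ, 4 * μ ≤ a → D.E1 n κ a + D.E3 a + Real.exp (-a / 2) * D.E2 n a ≤ 0
  l3 : ∀ a : ℝ, ν ≤ a → D.E1' n κ a + Real.exp (-a / 2) * D.E2' n a ≤ 0
  l4 : ∀ a : ℝ, 4 * ν ≤ a → D.E1' n κ a + D.E3' a + Real.exp (-a / 2) * D.E2' n a ≤ 0

end Pool.Agent.LPK
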