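import Pool.Agent.LPK.Defs

/-!
# Squad LPK (MP_37fa12_co): statements

GOAL.  A certificate `Cert n κ D μ ν` excludes lattices of covolume `κ (2π)^(n/2)` with the norms of the
nonzero vectors `≥ μ` (and `≥ ν` in the dual lattice).  Every lattice packing of `ℝ^n` then has centre
density at most `(μ/(8π))^(n/2) / κ`; together with a denser non lattice packing this answers Q1 (`S08123`).

Every row: file `Pool/Agent/HelperNN_LPK/XXX.lean`, import `Pool.Agent.LPK.Stmts`, namespace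
`Pool.Agent.LPK.HNN`, theorem `xxx (hypotheses = rows in uses, in this order) : XxxStmt`.
-/

set_option autoImplicit false

noncomputable section

open MeasureTheory Filter Topology
open scoped RealInnerProductSpace

namespace Pool.Agent.LPK

/-! ### polynomials -/

/-- **EVA** (uses nothing).  Values of the operations.
PROOF.  `List.map_append`, `List.sum_append`, induction on the list; `HasDerivAt` of a monomial; for the
exponent `0` the coefficient of the derivative is `0`.  `Ev (T3 n p)`: `opA` keeps the parity of the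
exponents of `H` (of the terms with coefficient `≠ 0`), `opD` changes it. -/
def EvaStmt : Prop :=
  (∀ (p q : P3) (A B H : ℝ), e3 (p ++ q) A B H = e3 p A B H + e3 q A B H) ∧
  (∀ (c : ℤ) (p : P3) (A B H : ℝ), e3 (sc c p) A B H = c * e3 p A B H) ∧
  (∀ (p : P3) (A B H : ℝ), e3 (mA p) A B H = A * e3 p A B H ∧ e3 (mB p) A B H = B * e3 p A B H ∧
    e3 (mH p) A B H = H * e3 p A B H) ∧
  (∀ (p : P3) (A B H : ℝ), HasDerivAt (fun x => e3 p x B H) (e3 (dA p) A B H) A ∧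
    HasDerivAt (fun x => e3 p A B x) (e3 (dH p) A B H) H) ∧
  (∀ (n : ℕ) (p : P3), Ev p → Ev (T3 n p)) ∧
  (∀ (p : P3) (A B H : ℝ), Ev p → e3 p A B (-H) = e3 p A B H)

/-- **BDD** (uses nothing).  Growth: `|p(|x|², |y|², ⟨x,y⟩)| ≤ C (1 + |x|²)^m (1 + |y|²)^m`.
PROOF.  For a monomial: `|⟨x,y⟩| ≤ ‖x‖ ‖y‖ ≤ (1 + ‖x‖²)(1 + ‖y‖²)`; take the sum of the `|c|` and the
maximum of the exponents `i + j + k`. -/
def BddStmt : Prop := ∀ (p : P3), ∃ (C : ℝ) (m : ℕ), 0 ≤ C ∧ ∀ (n : ℕ) (x y : V n),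
  |e3 p (‖x‖ ^ 2) (‖y‖ ^ 2) ⟪x, y⟫| ≤ C * (1 + ‖x‖ ^ 2) ^ m * (1 + ‖y‖ ^ 2) ^ m

/-! ### the Fourier transform -/

/-- **JDD** (uses nothing).  Second derivative of the transform in the direction `v`.
PROOF.  `hasDerivAt_integral_of_dominated_loc_of_deriv_le` twice; the derivative of `cos⟨x, w+tv⟩` in `t` is
`-⟨x,v⟩ sin⟨x, w+tv⟩`, of `sin` it is `⟨x,v⟩ cos`; the integrands are bounded by
`C (1+‖x‖²)^m ‖x‖^j ‖v‖^j e^(-‖x‖²/2)`, `j ≤ 2`, integrable (`(1+‖x‖²)^m e^(-‖x‖²/4)` is bounded, the Gaussian is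
integrable: `GaussianFourier.integrable_cexp_neg_mul_sq_norm_add`). -/
def JddStmt : Prop := ∀ (n : ℕ) (f : V n → ℝ) (C : ℝ) (m : ℕ), Continuous f →
  (∀ x, |f x| ≤ C * (1 + ‖x‖ ^ 2) ^ m) → Integrable (fun x => f x * G x) ∧ ∀ v w : V n,
    ∃ J' : ℝ → ℝ, (∀ t : ℝ, HasDerivAt (fun t : ℝ => ∫ x, f x * G x * Real.cos ⟪x, w + t • v⟫) (J' t) t) ∧
      ∀ t : ℝ, HasDerivAt J' (-∫ x, ⟪x, v⟫ ^ 2 * f x * G x * Real.cos ⟪x, w + t • v⟫) t

/-- **QDD** (uses EVA).  Second derivative of `F(w) = q(|w|²,|y|²,⟨w,y⟩) G(w)` in the direction `v`.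
PROOF.  `F = q G`, `∂q = 2⟨w,v⟩ q_A + ⟨y,v⟩ q_H`, `∂G = -⟨w,v⟩ G`, so `∂F = (∂q - ⟨w,v⟩ q) G` and
`∂²F = (∂²q - ‖v‖² q - 2⟨w,v⟩ ∂q + ⟨w,v⟩² q) G`, `∂²q = 2‖v‖² q_A + 4⟨w,v⟩² q_AA + 4⟨w,v⟩⟨y,v⟩ q_AH + ⟨y,v⟩² q_HH`
(chain rule with EVA; the function of two arguments `A, H`: `e3` is a polynomial, e.g. induction on the
list and `HasDerivAt.mul`, `HasDerivAt.pow`). -/
def QddStmt : Prop := ∀ (n : ℕ) (q : P3) (y v w : V n), ∃ F' : ℝ → ℝ,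
  (∀ t : ℝ, HasDerivAt (fun t : ℝ => e3 q (‖w + t • v‖ ^ 2) (‖y‖ ^ 2) ⟪w + t • v, y⟫ * G (w + t • v)) (F' t) t) ∧
  HasDerivAt F' ((4 * ⟪w, v⟫ ^ 2 * e3 (dA (dA q)) (‖w‖ ^ 2) (‖y‖ ^ 2) ⟪w, y⟫ +
    4 * ⟪w, v⟫ * ⟪y, v⟫ * e3 (dA (dH q)) (‖w‖ ^ 2) (‖y‖ ^ 2) ⟪w, y⟫ +
    ⟪y, v⟫ ^ 2 * e3 (dH (dH q)) (‖w‖ ^ 2) (‖y‖ ^ 2) ⟪w, y⟫ +
    2 * ‖v‖ ^ 2 * e3 (dA q) (‖w‖ ^ 2) (‖y‖ ^ 2) ⟪w, y⟫ -
    2 * ⟪w, v⟫ * (2 * ⟪w, v⟫ * e3 (dA q) (‖w‖ ^ 2) (‖y‖ ^ 2) ⟪w, y⟫ +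
      ⟪y, v⟫ * e3 (dH q) (‖w‖ ^ 2) (‖y‖ ^ 2) ⟪w, y⟫) +
    (⟪w, v⟫ ^ 2 - ‖v‖ ^ 2) * e3 q (‖w‖ ^ 2) (‖y‖ ^ 2) ⟪w, y⟫) * G w) 0

/-- **FTM** (uses EVA, BDD, JDD, QDD).  Transform of a monomial.
PROOF.  For a polynomial `q` and fixed `y` let `(*)` be: `∫ f(x) G(x) cos⟨x,w⟩ = (2π)^(n/2) q(..w..) G(w)` for all
`w`.  If `(*)` holds for `f, q` (`f` a monomial in `‖x‖², ⟨x,y⟩`), then it holds for `‖x‖² f`, `opA n q` and for
`⟨x,y⟩² f`, `sc (-1) (opD (opD q))`: the second derivatives at `t = 0` of both sides in the direction `v`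
agree (JDD, QDD, `HasDerivAt.unique` for the first and the second derivative).  `v = y`: the value of QDD is
`D(D q)` with `D q = 2 H q_A + B q_H - H q`.  Sum over the vectors `v = e_i` of the standard basis:
`∑ ⟨x,e_i⟩² = ‖x‖²`, `∑ ⟨w,e_i⟩ ⟨y,e_i⟩ = ⟨w,y⟩`, `∑ ‖e_i‖² = n`: `-opA n q`.  Start: `f = 1`, `q = [(1,0,0,0)]`:
`GaussianFourier.integral_cexp_neg_mul_sq_norm_add` (see `Pool.Agent.LPC`, row GFT, file
Helper4_LPC/GFT.lean, `a = 1`).  Induction on `k`, then on `i`; `mB^[j]` multiplies by `‖y‖^(2j)`. -/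
def FtmStmt : Prop := ∀ (n i j k : ℕ) (y w : V n),
  ∫ x : V n, (‖x‖ ^ 2) ^ i * (‖y‖ ^ 2) ^ j * ⟪x, y⟫ ^ (2 * k) * G x * Real.cos ⟪x, w⟫ =
    (2 * Real.pi) ^ ((n : ℝ) / 2) * (e3 (tm n i j k) (‖w‖ ^ 2) (‖y‖ ^ 2) ⟪w, y⟫ * G w)

/-- **FTP** (uses EVA, BDD, JDD, FTM).  Transform of an even polynomial.
PROOF.  Linearity (`T3` is defined by `flatMap`; a term `(c,i,j,h)` with `h = 2 (h/2)`); integrability from
BDD and the first part of JDD. -/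
def FtpStmt : Prop := ∀ (n : ℕ) (p : P3), Ev p → ∀ y w : V n,
  ∫ x : V n, e3 p (‖x‖ ^ 2) (‖y‖ ^ 2) ⟪x, y⟫ * G x * Real.cos ⟪x, w⟫ =
    (2 * Real.pi) ^ ((n : ℝ) / 2) * (e3 (T3 n p) (‖w‖ ^ 2) (‖y‖ ^ 2) ⟪w, y⟫ * G w)

/-! ### Poisson summation -/

/-- **PSZ** (uses nothing).  Poisson summation for `ℤ^n`.
PROOF.  The function `F(x) = ∑_k f(x + k)` is continuous on the torus `UnitAddTorus (Fin n)` (locally
uniform convergence from the Gaussian bound: `continuous_tsum` on bounded sets).  Its Fourier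
coefficients (`UnitAddTorus.mFourierCoeff`) are `∫_([0,1]^n) F e^(-2πi m·x) = ∫ f(x) e^(-2πi m·x) dx`
(sum and integral: `integral_tsum` / `hasSum_integral_of_summable_integral_norm`, the boxes `k + [0,1)^n` are a
partition; `IsAddFundamentalDomain.integral_eq_tsum` for `ℤ^n` or induction).  They are real and equal to
`∫ f cos` because `f` is even, and summable, so the Fourier series converges to `F`
(`UnitAddTorus.hasSum_mFourier_series_of_summable`); take `x = 0`.  ALTERNATIVE: induction on `n` with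
`Real.tsum_eq_tsum_fourierIntegral`. -/
def PszStmt : Prop := ∀ (n : ℕ) (f : (Fin n → ℝ) → ℝ) (C c : ℝ), 0 < c → Continuous f →
  (∀ x, f (-x) = f x) → (∀ x, |f x| ≤ C * Real.exp (-c * ∑ i, x i ^ 2)) →
  Summable (fun m : Fin n → ℤ => ∫ x : Fin n → ℝ, f x * Real.cos (2 * Real.pi * ∑ i, (m i : ℝ) * x i)) →
  ∑' k : Fin n → ℤ, f (fun i => (k i : ℝ)) =
    ∑' m : Fin n → ℤ, ∫ x : Fin n → ℝ, f x * Real.cos (2 * Real.pi * ∑ i, (m i : ℝ) * x i)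

/-- **DUA** (uses nothing).  The dual pair.
PROOF.  Symmetry: `⟨b' i, b j⟩`; `det B · det B' = (2π)^n` from `B B'^t = 2π I`, so `(det B')² = κ⁻² (2π)^n`.
`⟨x_a, u_c⟩ = 2π ∑ a_i c_i`: bilinearity.  Lower bound: `b` is linearly independent (`det ≠ 0`), the map
`z ↦ ∑ z_i b_i` is a linear isomorphism with a bounded inverse.  Additivity: clear. -/
def DuaStmt : Prop := ∀ (n : ℕ) (κ : ℝ) (b b' : Fin n → V n), Du κ b b' → Du κ⁻¹ b' b ∧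
  (∀ a c : Fin n → ℤ, ⟪pt b a, pt b' c⟫ = 2 * Real.pi * (∑ i, a i * c i : ℤ)) ∧
  (∃ c : ℝ, 0 < c ∧ ∀ z : Fin n → ℝ, c * ∑ i, z i ^ 2 ≤ ‖∑ i, z i • b i‖ ^ 2) ∧
  (∀ a c : Fin n → ℤ, pt b (a + c) = pt b a + pt b c ∧ pt b (a - c) = pt b a - pt b c ∧
    pt b (-a) = -pt b a ∧ pt b 0 = 0) ∧
  (∀ a : Fin n → ℤ, pt b (2 • a) = (2 : ℝ) • pt b a)

/-- **PSL** (uses PSZ, DUA).  Poisson summation for the lattice.
PROOF.  PSZ for `z ↦ f(∑ z_i b_i)`; substitution `x = ∑ z_i b_i` (linear map with `|det| = κ (2π)^(n/2)`: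
`MeasureTheory.Measure.integral_comp_...` / `LinearMap` and `addHaar` determinant,
`EuclideanSpace.volume_preserving_measurableEquiv`), `⟨x, u_m⟩ = 2π ∑ m_i z_i` by DUA (bilinear, real
coefficients). -/
def PslStmt : Prop := ∀ (n : ℕ) (κ : ℝ) (b b' : Fin n → V n), Du κ b b' → ∀ (f : V n → ℝ) (C c : ℝ), 0 < c →
  Continuous f → (∀ x, f (-x) = f x) → (∀ x, |f x| ≤ C * Real.exp (-c * ‖x‖ ^ 2)) →
  Summable (fun m : Fin n → ℤ => ∫ x : V n, f x * Real.cos ⟪x, pt b' m⟫) →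
  κ * (2 * Real.pi) ^ ((n : ℝ) / 2) * ∑' a : Fin n → ℤ, f (pt b a) =
    ∑' m : Fin n → ℤ, ∫ x : V n, f x * Real.cos ⟪x, pt b' m⟫

/-- **SUM** (uses BDD, DUA).  Summability.
PROOF.  `|e3 p ..| G(x) G(y) ≤ C (1+‖x‖²)^m e^(-‖x‖²/2) (1+‖y‖²)^m e^(-‖y‖²/2) ≤ C' e^(-‖x‖²/4) e^(-‖y‖²/4)`, and
`∑_a e^(-c ∑ a_i²)` converges on `Fin n → ℤ` (product of one dimensional sums; e.g. compare with
`∏ 1/(1 + a_i²)`; `summable_mul_of_summable_norm`/`Summable.prod_mul`).  `b` and `c` are two bases with the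
lower bound of DUA. -/
def SumStmt : Prop := ∀ (n : ℕ) (κ κ' : ℝ) (b c b' c' : Fin n → V n), Du κ b b' → Du κ' c c' →
  (∀ (p : P3) (y : V n), Summable fun a : Fin n → ℤ =>
    e3 p (‖pt b a‖ ^ 2) (‖y‖ ^ 2) ⟪pt b a, y⟫ * G (pt b a)) ∧
  (∀ p : P3, Summable fun a : Z2 n => W p (pt b a.1) (pt c a.2)) ∧
  (∀ s : List ℤ, Summable fun a : Fin n → ℤ => W1 s (pt b a)) ∧
  (∀ s t : List ℤ, Summable fun a : Z2 n => W1 s (pt b a.1) * W1 t (pt c a.2))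

/-- **PLM** (uses BDD, FTP, DUA, PSL, SUM).  Poisson summation for polynomials.
PROOF.  PSL for `f(x) = e3 p (‖x‖²) (‖y‖²) ⟨x,y⟩ G(x)` (even because `p` is even in `H`; Gaussian bound with
`c = 1/4`), FTP for the transform, SUM for the summability of the right side, division by
`(2π)^(n/2)`. -/
def PlmStmt : Prop := ∀ (n : ℕ) (κ : ℝ) (b b' : Fin n → V n), Du κ b b' → ∀ p : P3, Ev p → ∀ y : V n,
  κ * ∑' a : Fin n → ℤ, e3 p (‖pt b a‖ ^ 2) (‖y‖ ^ 2) ⟪pt b a, y⟫ * G (pt b a) =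
    ∑' c : Fin n → ℤ, e3 (T3 n p) (‖pt b' c‖ ^ 2) (‖y‖ ^ 2) ⟪pt b' c, y⟫ * G (pt b' c)

/-- **MLL** (uses PLM, SUM).  The first vector of a pair is transformed.
PROOF.  `∑' over pairs = ∑' over the second of ∑' over the first` (SUM, `Summable.tsum_prod`, swap), PLM
with `y = pt d a.2`, multiplied by `G y`. -/
def MllStmt : Prop := ∀ (n : ℕ) (κ κ' : ℝ) (b b' d d' : Fin n → V n), Du κ b b' → Du κ' d d' →
  ∀ p : P3, Ev p →
  κ * ∑' a : Z2 n, W p (pt b a.1) (pt d a.2) = ∑' a : Z2 n, W (T3 n p) (pt b' a.1) (pt d a.2)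

/-- **GPO** (uses PLM).  One vector: `g` without `B`, `H` (PLM with `y = 0`; all terms of `T3 n g` have no
`H`, no `B`: or simply state it with `y = 0`: `‖0‖² = 0`, `⟨x,0⟩ = 0`). -/
def GpoStmt : Prop := ∀ (n : ℕ) (κ : ℝ) (b b' : Fin n → V n), Du κ b b' → ∀ g : P3, Ev g →
  κ * ∑' a : Fin n → ℤ, e3 g (‖pt b a‖ ^ 2) 0 0 * G (pt b a) =
    ∑' c : Fin n → ℤ, e3 (T3 n g) (‖pt b' c‖ ^ 2) 0 0 * G (pt b' c)

/-! ### squares -/

/-- **PS0** (uses SUM).  A square: `(α + ∑ s)² ≥ 0`.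
PROOF.  `(∑' s)² = ∑' over pairs` (`Summable.tsum_mul_tsum`). -/
def Ps0Stmt : Prop := ∀ (n : ℕ) (κ : ℝ) (b b' : Fin n → V n), Du κ b b' → ∀ (α : ℝ) (s : List ℤ),
  0 ≤ α ^ 2 + 2 * α * (∑' a : Fin n → ℤ, W1 s (pt b a)) +
    ∑' a : Z2 n, W1 s (pt b a.1) * W1 s (pt b a.2)

/-- **PS2** (uses SUM).  Degree 2.
PROOF.  For `i, j` let `M_ij = ∑_x s(x) (n x_i x_j - [i=j] ‖x‖²)` (coordinates).  `∑_ij M_ij² ≥ 0` and
`∑_ij (n x_i x_j - [i=j]‖x‖²)(n y_i y_j - [i=j]‖y‖²) = n² ⟨x,y⟩² - n ‖x‖²‖y‖²`, divide by `n ≥ 1` (for `n = 0`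
everything is `0`).  Summability of `s(x) x_i x_j`: `|x_i x_j| ≤ ‖x‖²`, SUM with `s` multiplied by `‖x‖²`
(the list `0 :: s`). -/
def Ps2Stmt : Prop := ∀ (n : ℕ) (κ : ℝ) (b b' : Fin n → V n), Du κ b b' → ∀ s : List ℤ,
  (Summable fun a : Z2 n => W1 s (pt b a.1) * W1 s (pt b a.2) *
    (n * ⟪pt b a.1, pt b a.2⟫ ^ 2 - ‖pt b a.1‖ ^ 2 * ‖pt b a.2‖ ^ 2)) ∧
  0 ≤ ∑' a : Z2 n, W1 s (pt b a.1) * W1 s (pt b a.2) *
    (n * ⟪pt b a.1, pt b a.2⟫ ^ 2 - ‖pt b a.1‖ ^ 2 * ‖pt b a.2‖ ^ 2)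

/-- **HAD** (uses nothing).  The class block, finite form.
PROOF.  `N = 2^n` classes, `r² N = 1` (`n` even).  `∑_c (-1)^(c·d) (-1)^(c·e) = N [d = e]` on `Fin n → ZMod 2` (or on
`Fin n → Bool`, `Fin n → Fin 2`): product of one dimensional sums.  Expand the square
`∑_c (α [c=0] + β r + S c + r ∑_d χ(c,d) T d)²`: the products are `α²`, `β² r² N = β²`, `2 α β r`, `2 α S 0`,
`2 α r ∑ T`, `2 β r ∑ S`, `2 β r² ∑_c ∑_d χ T d = 2 β r² N T 0 = 2 β T 0`, `∑ S²`, `r² ∑_c (∑_d χ T d)² = ∑ T²`,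
`2 r ∑_c ∑_d χ S c T d`. -/
def HadStmt : Prop := ∀ (n : ℕ), Even n → ∀ (α β : ℝ) (S T : (Fin n → ZMod 2) → ℝ)
  (χ : (Fin n → ZMod 2) → (Fin n → ZMod 2) → ℝ),
  (∀ c d, χ c d = if ∑ i, c i * d i = 0 then 1 else -1) →
  0 ≤ α ^ 2 + 2 * α * β * rr n + β ^ 2 + 2 * α * S 0 + 2 * β * rr n * ∑ c, S c +
    2 * α * rr n * ∑ d, T d + 2 * β * T 0 + ∑ c, S c ^ 2 + ∑ d, T d ^ 2 +
    2 * rr n * ∑ c, ∑ d, χ c d * (S c * T d)

/-- **CBN** (uses SUM, HAD).  The class block is nonnegative.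
PROOF.  `S c = ∑_(a mod 2 = c) s(x_a)`, `T d` the same for `t`, `b'`.  Split the sums over `Fin n → ℤ` and over
pairs by the classes (`Summable` families over a finite partition: `tsum` of indicator functions,
`∑' a, f a = ∑ c, ∑' a, ind(a mod 2 = c) f a`); `Evn a ↔ a mod 2 = 0`, `Cg a c ↔` same class,
`sg a c = χ (a mod 2) (c mod 2)`; product of two sums = sum over pairs. -/
def CbnStmt : Prop := ∀ (n : ℕ), Even n → ∀ (κ : ℝ) (b b' : Fin n → V n), Du κ b b' →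
  ∀ (α β : ℝ) (s t : List ℤ), 0 ≤ CB b b' α β s t

/-! ### the contradiction -/

/-- **SPL** (uses nothing).  Comparison term by term.
PROOF.  Write `Z = Fin n → ℤ`.  Symmetrize `fLL` and `fSS` (the sum over pairs does not change when the
components are exchanged, `Equiv.prodComm`).  Split the sum over pairs of `fLL` into: `(0,0)`; `(a,0)`; `(0,a)`;
`(a,a)`; `(a,-a)`, `a ≠ 0` (disjoint, `a ≠ -a`); the rest (`a, a' ≠ 0`, `a ≠ ±a'`).  The same for `fSS`, and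
`fLS` into `(0,0)`, `(a,0)`, `(0,c)`, rest.  All partial families are summable (subfamilies of absolutely
convergent families: `Summable` in `ℝ` over an injective index map, `Summable.comp_injective`,
`Summable.subtype`, `tsum_subtype_add_tsum_subtype_compl`).  The rest families are `≤ 0` termwise
(after symmetrization), the families indexed by `a ≠ 0` together are `≤ 0` termwise by the conditions
(ii), (iii), and the constant is `< 0`.  CONVENIENT: for `fLL` use `tsum` over `Z × Z` of `fLL - (indicator parts)`. -/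
def SplStmt : Prop := ∀ (n : ℕ) (fLL fSS fLS : Z2 n → ℝ) (fL fS : (Fin n → ℤ) → ℝ) (c : ℝ),
  Summable fLL → Summable fSS → Summable fLS → Summable fL → Summable fS →
  0 ≤ (∑' a, fLL a) + (∑' a, fSS a) + (∑' a, fLS a) + (∑' a, fL a) + (∑' a, fS a) + c →
  fLL (0, 0) + fSS (0, 0) + fLS (0, 0) + fL 0 + fS 0 + c < 0 →
  (∀ a : Fin n → ℤ, a ≠ 0 → fLL (a, 0) + fLL (0, a) + fLL (a, a) + fLL (a, -a) + fLS (a, 0) + fL a ≤ 0) →
  (∀ a : Fin n → ℤ, a ≠ 0 → fSS (a, 0) + fSS (0, a) + fSS (a, a) + fSS (a, -a) + fLS (0, a) + fS a ≤ 0) →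
  (∀ a a' : Fin n → ℤ, a ≠ 0 → a' ≠ 0 → a ≠ a' → a ≠ -a' → fLL (a, a') + fLL (a', a) ≤ 0) →
  (∀ a a' : Fin n → ℤ, a ≠ 0 → a' ≠ 0 → a ≠ a' → a ≠ -a' → fSS (a, a') + fSS (a', a) ≤ 0) →
  (∀ a c : Fin n → ℤ, a ≠ 0 → c ≠ 0 → fLS (a, c) ≤ 0) → False

/-- the functions of SPL for a certificate: pairs of the lattice -/
def fLL {n : ℕ} (D : CD) (b : Fin n → V n) (a : Z2 n) : ℝ :=
  (D.LL n (‖pt b a.1‖ ^ 2) (‖pt b a.2‖ ^ 2) ⟪pt b a.1, pt b a.2⟫ +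
    ind (Cg a.1 a.2) * D.C (‖pt b a.1‖ ^ 2) (‖pt b a.2‖ ^ 2)) * (G (pt b a.1) * G (pt b a.2))

/-- pairs of the dual lattice -/
def fSS {n : ℕ} (D : CD) (b' : Fin n → V n) (a : Z2 n) : ℝ :=
  (D.SS n (‖pt b' a.1‖ ^ 2) (‖pt b' a.2‖ ^ 2) ⟪pt b' a.1, pt b' a.2⟫ +
    ind (Cg a.1 a.2) * D.C' (‖pt b' a.1‖ ^ 2) (‖pt b' a.2‖ ^ 2)) * (G (pt b' a.1) * G (pt b' a.2))

/-- mixed pairs -/
def fLS {n : ℕ} (κ : ℝ) (D : CD) (b b' : Fin n → V n) (a : Z2 n) : ℝ :=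
  (D.LS n κ (‖pt b a.1‖ ^ 2) (‖pt b' a.2‖ ^ 2) ⟪pt b a.1, pt b' a.2⟫ +
    2 * rr n * sg a.1 a.2 * D.X (‖pt b a.1‖ ^ 2) (‖pt b' a.2‖ ^ 2)) * (G (pt b a.1) * G (pt b' a.2))

/-- one vector of the lattice -/
def fL {n : ℕ} (D : CD) (b : Fin n → V n) (a : Fin n → ℤ) : ℝ :=
  (D.f1 n (‖pt b a‖ ^ 2) + ind (Evn a) * (2 * D.as (‖pt b a‖ ^ 2))) * G (pt b a)

/-- one vector of the dual lattice -/
def fS {n : ℕ} (κ : ℝ) (D : CD) (b' : Fin n → V n) (a : Fin n → ℤ) : ℝ :=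
  (D.f1' n κ (‖pt b' a‖ ^ 2) + ind (Evn a) * (2 * D.bt (‖pt b' a‖ ^ 2))) * G (pt b' a)

/-- **FSM** (uses SUM, PS2).  Everything is summable.
PROOF.  Every function is a finite sum (over the lists of `D`) of terms covered by SUM and PS2, times
`ind`, `sg` (bounded by `1` in absolute value: `Summable.of_norm_bounded`).  `e1 s A` at a pair:
`W1 s x * W1 t y`; `e3 p ..` : `W`. -/
def FsmStmt : Prop := ∀ (n : ℕ) (κ : ℝ) (D : CD) (b b' : Fin n → V n), Du κ b b' →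
  Summable (fLL D b) ∧ Summable (fSS D b') ∧ Summable (fLS κ D b b') ∧ Summable (fL D b) ∧
    Summable (fS κ D b')

/-- **TOT** (uses DUA, SUM, MLL, GPO, PS0, PS2, CBN, FSM).  The total is nonnegative.
PROOF.  The sum of: (1) `∑_LL W P - κ⁻¹ ∑ W (T3 P)(u, y) = 0` (MLL with `b`, `d = b`), the second sum written with
`(x, u)` for `(y, u)` (`Equiv.prodComm`, symmetry of the inner product); (2) the same for `Q` (MLL with
`b'`, `d = b'`: `∑_SS W Q = κ ∑ W (T3 Q)(x, v)`, `x` in the lattice); (3) `∑ g - κ⁻¹ ∑ T g = 0` (GPO); (4) `∑ d CB ≥ 0`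
(CBN); (5) `∑ d (PS0) ≥ 0` for `ps` on `b` and `qs` on `b'`; (6) `∑ d (PS2) ≥ 0`.  Collect the sums over the same
index set (finite sums of summable families: `Summable.tsum_add`, `tsum_mul_left`, induction on the
lists). -/
def TotStmt : Prop := ∀ (n : ℕ) (κ : ℝ) (D : CD) (b b' : Fin n → V n), Even n → Du κ b b' → Ev D.P → Ev D.Q →
  (∀ t ∈ D.g, t.2.2.1 = 0 ∧ t.2.2.2 = 0) →
  0 ≤ (∑' a, fLL D b a) + (∑' a, fSS D b' a) + (∑' a, fLS κ D b b' a) + (∑' a, fL D b a) +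
    (∑' a, fS κ D b' a) + (D.c0 n + bc D.ps + bc D.qs)

/-- **LIN** (uses EVA, DUA).  The conditions for one vector.
PROOF.  `x = pt b a`, `A = ‖x‖² ≥ μ`, `G x = e^(-A/2)`, `G 0 = 1`.  `fLL (a,0) + fLL (0,a) + fLS (a,0) + fL a` is
`e^(-A/2)` times `E1 A` (`a` not even: `Cg a 0 ↔ Evn a`; `sg a 0 = 1`) or `E1 A + E3 A` (`a` even; then `A ≥ 4 μ`:
`a = 2 • c`), `fLL (a,a) + fLL (a,-a)` is `e^(-A)` times `E2 A` (`Cg a a`, `Cg a (-a)` hold; evenness in `H` by EVA: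
`K` is even in `H`).  The dual part is the same; `LS` at `(0, a)`. -/
def LinStmt : Prop := ∀ (n : ℕ) (κ : ℝ) (D : CD) (μ ν : ℝ), Cert n κ D μ ν → ∀ b b' : Fin n → V n,
  Du κ b b' →
  Mu μ b → Mu ν b' →
  (∀ a : Fin n → ℤ, a ≠ 0 → fLL D b (a, 0) + fLL D b (0, a) + fLL D b (a, a) + fLL D b (a, -a) +
    fLS κ D b b' (a, 0) + fL D b a ≤ 0) ∧
  (∀ a : Fin n → ℤ, a ≠ 0 → fSS D b' (a, 0) + fSS D b' (0, a) + fSS D b' (a, a) + fSS D b' (a, -a) +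
    fLS κ D b b' (0, a) + fS κ D b' a ≤ 0)

/-- **PAI** (uses EVA, DUA).  The conditions for pairs.
PROOF.  `x = pt b a`, `y = pt b a'`; `x ± y = pt b (a ± a')` are not zero, so their norms are `≥ μ`, and `≥ 4 μ`
if `Cg a a'` (`a ± a' = 2 • c`, `c ≠ 0`).  Take `H = |⟨x,y⟩|` (evenness of `LL` in `H`), `A + B - 2H = ‖x ∓ y‖²`,
`H² ≤ AB` (Cauchy-Schwarz); `Cg` is symmetric, `C` is symmetric.  `G x G y > 0`.  Mixed: `⟨x,u⟩ = 2π k`,
`k = ∑ a_i c_i`, `sg a c = (-1)^|k|`, `LS` is even in `H`. -/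
def PaiStmt : Prop := ∀ (n : ℕ) (κ : ℝ) (D : CD) (μ ν : ℝ), Cert n κ D μ ν → ∀ b b' : Fin n → V n,
  Du κ b b' →
  Mu μ b → Mu ν b' →
  (∀ a a' : Fin n → ℤ, a ≠ 0 → a' ≠ 0 → a ≠ a' → a ≠ -a' → fLL D b (a, a') + fLL D b (a', a) ≤ 0) ∧
  (∀ a a' : Fin n → ℤ, a ≠ 0 → a' ≠ 0 → a ≠ a' → a ≠ -a' → fSS D b' (a, a') + fSS D b' (a', a) ≤ 0) ∧
  (∀ a c : Fin n → ℤ, a ≠ 0 → c ≠ 0 → fLS κ D b b' (a, c) ≤ 0)

/-- **CTR** (uses DUA, SPL, FSM, TOT, LIN, PAI).  The contradiction. -/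
def CtrStmt : Prop := ∀ (n : ℕ) (κ : ℝ) (D : CD) (μ ν : ℝ), Cert n κ D μ ν → ∀ b b' : Fin n → V n,
  Du κ b b' →
  Mu μ b → Mu ν b' → False

/-! ### packings -/

/-- **RNK** (uses nothing).  Groups which do not span.
PROOF.  `L` lies in a hyperplane `v^⊥`, `‖v‖ = 1` (`Submodule` of smaller dimension).  The balls of radius `1/2` around
`x + j v`, `x ∈ L`, `j = 0, 1, .., M`, are disjoint (different `x`: distance `≥ 2`; different `j`: distance `≥ 1`), so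
the number of points of `L` in `B_R` is at most `vol B_(R+M+1) / ((M+1) vol B_(1/2))`; the volume of the balls
in `B_R` is at most `(number of points in B_(R+1)) vol B_1`; divide by `vol B_R`, `R → ∞`: limsup at most
`2^n/(M+1)` for every `M`. -/
def RnkStmt : Prop := ∀ (n : ℕ) (L : AddSubgroup (V n)),
  (L : Set (V n)).Pairwise (fun x y => 2 ≤ dist x y) → Submodule.span ℝ (L : Set (V n)) ≠ ⊤ →
  Filter.limsup (fun R : ℝ => volume ((⋃ x ∈ (L : Set (V n)), Metric.ball x 1) ∩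
    Metric.ball (0 : V n) R) / volume (Metric.ball (0 : V n) R)) atTop = 0

/-- **BAS** (uses nothing).  Groups which span: a basis and the density.
PROOF.  `L` is discrete, so a `ZLattice`; take a `ℤ`-basis (`ZLattice` API: `Module.Free`, rank `n`,
`Module.finBasis` reindexed by `Fin n`), as vectors of `V n` it is an `ℝ`-basis, `det ≠ 0`.  Density: the number of
points of `L` in `B_R` divided by `R^n` tends to `vol B_1 / covol` (`ZLattice.covolume.tendsto_card_div_pow'` for the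
unit ball), `covol = |det b|` (`ZLattice.covolume_eq_det_mul_measureReal`); the volume of the union in `B_R` is
at most `#(L ∩ B_(R+1)) vol B_1`. -/
def BasStmt : Prop := ∀ (n : ℕ) (L : AddSubgroup (V n)), 1 ≤ n →
  (L : Set (V n)).Pairwise (fun x y => 2 ≤ dist x y) → Submodule.span ℝ (L : Set (V n)) = ⊤ →
  ∃ c : Fin n → V n, (∀ v : V n, v ∈ L ↔ ∃ a : Fin n → ℤ, v = pt c a) ∧
    (Matrix.of fun i j => c i j).det ≠ 0 ∧
    Filter.limsup (fun R : ℝ => volume ((⋃ x ∈ (L : Set (V n)), Metric.ball x 1) ∩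
      Metric.ball (0 : V n) R) / volume (Metric.ball (0 : V n) R)) atTop ≤
        ENNReal.ofReal (1 / |(Matrix.of fun i j => c i j).det|) * volume (Metric.ball (0 : V n) 1)

/-- **SCL** (uses nothing).  Scaling and the dual basis.
PROOF.  `t = (κ (2π)^(n/2) / |det c|)^(1/n)`, `b = t c`: `(det b)² = t^(2n) (det c)² = κ² (2π)^n`.  `b'` = rows of
`2π (B^(-1))^t`.  `pt b a = t pt c a`. -/
def SclStmt : Prop := ∀ (n : ℕ) (κ : ℝ) (c : Fin n → V n), 1 ≤ n → 0 < κ → (Matrix.of fun i j => c i j).det ≠ 0 →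
  ∃ (t : ℝ) (b b' : Fin n → V n), 0 < t ∧ Du κ b b' ∧ (∀ a : Fin n → ℤ, pt b a = t • pt c a) ∧
    t ^ n * |(Matrix.of fun i j => c i j).det| = κ * (2 * Real.pi) ^ ((n : ℝ) / 2)

/-- **UPB** (uses RNK, BAS, SCL, CTR).  The bound for lattice packings.
PROOF.  Rank deficient: RNK.  Otherwise BAS, SCL.  If `4 t² ≥ μ` then `Mu μ b` (`‖pt b a‖² = t² ‖pt c a‖² ≥ 4 t²`,
`pt c a ∈ L` is not `0` for `a ≠ 0`), contradiction with CTR (the dual minimum: hypothesis `hν`).  So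
`4 t² < μ`, `1/|det c| = t^n / (κ (2π)^(n/2)) ≤ (μ/4)^(n/2) / (κ (2π)^(n/2)) = (μ/(8π))^(n/2) / κ`. -/
def UpbStmt : Prop := ∀ (n : ℕ) (κ : ℝ) (D : CD) (μ ν : ℝ), Cert n κ D μ ν →
  (∀ b b' : Fin n → V n, Du κ b b' → Mu μ b → Mu ν b') → ∀ L : AddSubgroup (V n),
  (L : Set (V n)).Pairwise (fun x y => 2 ≤ dist x y) →
  Filter.limsup (fun R : ℝ => volume ((⋃ x ∈ (L : Set (V n)), Metric.ball x 1) ∩
    Metric.ball (0 : V n) R) / volume (Metric.ball (0 : V n) R)) atTop ≤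
      ENNReal.ofReal ((μ / (8 * Real.pi)) ^ (n / 2) / κ) * volume (Metric.ball (0 : V n) 1)

end Pool.Agent.LPK
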